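import Pool.Agent.UMG.StmtsA

/-!
# Squad UMG, row SNG: only fixed points
-/

set_option autoImplicit false

namespace Pool.Agent.UMG.A.H74

open Finset Pool.Agent.UMG

theorem sng : SngStmt := by
  intro u n
  induction n with
  | zero =>
    unfold E
    simp
  | succ n ih =>
    unfold E
    have h : ∑ i ∈ range (n + 1), (if i + 1 = 1 then u else 0) *
        E (fun l => if l = 1 then u else 0) (n - i) = u * (u ^ n / (n.factorial : ℝ)) := by
      rw [Finset.sum_eq_single 0]
      · simp only [zero_add, if_true, Nat.sub_zero]
        rw [ih]
      · intro i _ hi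
        rw [if_neg (by omega), zero_mul]
      · intro h
        exact absurd (Finset.mem_range.2 (Nat.succ_pos n)) h
    rw [h, Algebra.smul_def]
    have h1 : (n.factorial : ℝ) ≠ 0 := by exact_mod_cast n.factorial_ne_zero
    have h2 : ((n : ℝ) + 1) ≠ 0 := by positivity
    rw [Nat.factorial_succ]
    push_cast
    field_simp
    ring

end Pool.Agent.UMG.A.H74
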